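import Pool.Agent.W2helper17.NW.Gen

/-!
# Project NW, piece LowD: the explicit passages of the dodecahedron
-/

set_option autoImplicit false

namespace Pool.Agent.W2helper17.NW

open Matrix
open scoped goldenRatio
open Pool.Agent.W2helper59.NW

/-- the inner matrix -/
def MD (A B : ℝ) : Matrix (Fin 3) (Fin 3) ℝ := !![0, A, -B; 1, 0, 0; 0, -B, -A]

/-- the outer matrix -/
def ND (p q : ℝ) : Matrix (Fin 3) (Fin 3) ℝ := !![0, 1, 0; p, 0, -q; -q, 0, -p]

theorem MD_mem {A B : ℝ} (h : A ^ 2 + B ^ 2 = 1) :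
    MD A B ∈ Matrix.specialOrthogonalGroup (Fin 3) ℝ := by
  rw [Matrix.mem_specialOrthogonalGroup_iff, Matrix.mem_orthogonalGroup_iff]
  constructor
  · ext i j
    fin_cases i <;> fin_cases j <;>
      simp [MD, Matrix.mul_apply, Fin.sum_univ_three] <;> linarith
  · simp [MD, Matrix.det_fin_three]
    linarith

theorem ND_mem {p q : ℝ} (h : p ^ 2 + q ^ 2 = 1) :
    ND p q ∈ Matrix.specialOrthogonalGroup (Fin 3) ℝ := by
  rw [Matrix.mem_specialOrthogonalGroup_iff, Matrix.mem_orthogonalGroup_iff]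
  constructor
  · ext i j
    fin_cases i <;> fin_cases j <;>
      simp [ND, Matrix.mul_apply, Fin.sum_univ_three] <;> linarith
  · simp [ND, Matrix.det_fin_three]
    linarith

theorem MD_vec (A B : ℝ) (x y z : ℝ) :
    ((MD A B).mulVec ![x, y, z]) 0 = A * y - B * z ∧ ((MD A B).mulVec ![x, y, z]) 1 = x := by
  constructor <;> (simp [MD, Matrix.mulVec, dotProduct, Fin.sum_univ_three]; try ring)

theorem ND_vec (p q : ℝ) (x y z : ℝ) :
    ((ND p q).mulVec ![x, y, z]) 0 = y ∧ ((ND p q).mulVec ![x, y, z]) 1 = p * x - q * z := by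
  constructor <;> (simp [ND, Matrix.mulVec, dotProduct, Fin.sum_univ_three]; try ring)

theorem phi_sq : φ ^ 2 = φ + 1 := Real.goldenRatio_sq

theorem bd_aux (f : ℝ) (h0 : 0 < f) (h1 : f ^ 2 = f + 1) : (1.61803 : ℝ) < f ∧ f < 1.61804 := by
  constructor
  · by_contra h
    push Not at h
    nlinarith
  · by_contra h
    push Not at h
    nlinarith

theorem phi_bd : (1.61803 : ℝ) < φ ∧ φ < 1.61804 := bd_aux φ Real.goldenRatio_pos phi_sq

theorem inv_aux (f : ℝ) (h1 : f ^ 2 = f + 1) : f⁻¹ = f - 1 := by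
  have h2 : f * (f - 1) = 1 := by linarith [h1, sq f]
  exact inv_eq_of_mul_eq_one_right h2

theorem phi_inv : φ⁻¹ = φ - 1 := inv_aux φ phi_sq

theorem edge_aux (f p q x : ℝ) (hf : 0 < f - 1) :
    (f - 1) * ((1 - (x - 1) / (f - 1)) * (p + q) + (x - 1) / (f - 1) * ((f - 1) * p)) =
      p + f * q - ((2 - f) * p + q) * x := by
  have e : (x - 1) / (f - 1) * (f - 1) = x - 1 := div_mul_cancel₀ _ hf.ne'
  have e1 : (f - 1) * ((1 - (x - 1) / (f - 1)) * (p + q) + (x - 1) / (f - 1) * ((f - 1) * p)) =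
      (f - 1) * (p + q) - ((x - 1) / (f - 1) * (f - 1)) * (p + q) +
        ((x - 1) / (f - 1) * (f - 1)) * ((f - 1) * p) := by ring
  rw [e1, e]
  ring

theorem edge_aux2 (f s x : ℝ) (hf : 0 < f - 1) :
    (1 - (x - 1) / (f - 1)) * s + (x - 1) / (f - 1) * (s * f) = s * x := by
  have e : (x - 1) / (f - 1) * (f - 1) = x - 1 := div_mul_cancel₀ _ hf.ne'
  have e1 : (1 - (x - 1) / (f - 1)) * s + (x - 1) / (f - 1) * (s * f) =
      s + s * ((x - 1) / (f - 1) * (f - 1)) := by ring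
  rw [e1, e]
  ring

/-- numerical bounds for the optimal data -/
theorem opt_bd {A B p q ν : ℝ} (h : Opt A B p q ν) :
    ((0.96472 : ℝ) < A ∧ A < 0.96473) ∧ ((0.26326 : ℝ) < B ∧ B < 0.26327) ∧
      ((0.93623 : ℝ) < p ∧ p < 0.93624) ∧ ((0.35138 : ℝ) < q ∧ q < 0.35139) ∧
      ((1.01082 : ℝ) < ν ∧ ν < 1.01083) := by
  have h1 := abs_le.1 h.nA
  have h2 := abs_le.1 h.nB
  have h3 := abs_le.1 h.np
  have h4 := abs_le.1 h.nq
  have h5 := abs_le.1 h.nc
  norm_num at h1 h2 h3 h4 h5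
  refine ⟨⟨?_, ?_⟩, ⟨?_, ?_⟩, ⟨?_, ?_⟩, ⟨?_, ?_⟩, ⟨?_, ?_⟩⟩ <;> norm_num <;> linarith [h1.1, h1.2,
    h2.1, h2.2, h3.1, h3.2, h4.1, h4.2, h5.1, h5.2]

/-- the decagon -/
def OD (p q : ℝ) : Set (Fin 2 → ℝ) :=
  St 1 0 φ ∩ (St ((2 - φ) * p + q) (φ - 1) (p + φ * q) ∩
    St ((φ - 1) * p - (2 - φ) * q) 1 (φ * p + (φ - 1) * q))

theorem coef {p q : ℝ} (hp : (0.93623 : ℝ) < p ∧ p < 0.93624) (hq : (0.35138 : ℝ) < q ∧ q < 0.35139) :
    (0 < (2 - φ) * p + q ∧ (2 - φ) * p + q < 0.7091) ∧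
    (0 < (φ - 1) * p - (2 - φ) * q ∧ (φ - 1) * p - (2 - φ) * q < 0.4445) ∧
    1.5045 < p + φ * q ∧ 1.7320 < φ * p + (φ - 1) * q := by
  obtain ⟨hf1, hf2⟩ := phi_bd
  obtain ⟨hp1, hp2⟩ := hp
  obtain ⟨hq1, hq2⟩ := hq
  have a1 : (1.61803 : ℝ) * 0.93623 < φ * p := mul_lt_mul'' hf1 hp1 (by norm_num) (by norm_num)
  have a2 : φ * p < 1.61804 * 0.93624 := mul_lt_mul'' hf2 hp2 (by linarith) (by linarith)
  have a3 : (1.61803 : ℝ) * 0.35138 < φ * q := mul_lt_mul'' hf1 hq1 (by norm_num) (by norm_num)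
  have a4 : φ * q < 1.61804 * 0.35139 := mul_lt_mul'' hf2 hq2 (by linarith) (by linarith)
  norm_num at a1 a2 a3 a4
  refine ⟨⟨?_, ?_⟩, ⟨?_, ?_⟩, ?_, ?_⟩ <;> nlinarith [a1, a2, a3, a4]

theorem OD_sub (p q : ℝ) : OD p q ⊆ Sh (ND p q) VD := by
  rintro z ⟨z1, z2, z3⟩
  have hf := phi_bd
  have hsq := phi_sq
  have z1' : 1 * |z 0| + 0 * |z 1| < φ := z1
  have z2' : ((2 - φ) * p + q) * |z 0| + (φ - 1) * |z 1| < p + φ * q := z2
  have z3' : ((φ - 1) * p - (2 - φ) * q) * |z 0| + 1 * |z 1| < φ * p + (φ - 1) * q := z3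
  have hK := convex_Sh (ND p q) VD
  -- vertices
  have v1 : ∀ s : ℝ, s = 1 ∨ s = -1 → ![s, p + q] ∈ Sh (ND p q) VD := fun s hs =>
    mem_Sh (V := VD) (v := ![1, s, -1]) ⟨1, s, -1, Or.inl rfl, hs, Or.inr rfl, Or.inl rfl⟩
      (ND_vec p q _ _ _).1 (by rw [(ND_vec p q _ _ _).2]; ring)
  have v1' : ∀ s : ℝ, s = 1 ∨ s = -1 → ![s, -(p + q)] ∈ Sh (ND p q) VD := fun s hs =>
    mem_Sh (V := VD) (v := ![-1, s, 1]) ⟨-1, s, 1, Or.inr rfl, hs, Or.inl rfl, Or.inl rfl⟩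
      (ND_vec p q _ _ _).1 (by rw [(ND_vec p q _ _ _).2]; ring)
  have v2 : ∀ s : ℝ, s = 1 ∨ s = -1 → ![s * φ, (φ - 1) * p] ∈ Sh (ND p q) VD := fun s hs =>
    mem_Sh (V := VD) (v := ![1 / φ, s * φ, 0]) ⟨1, 1, s, Or.inl rfl, Or.inl rfl, hs,
      Or.inr (Or.inr (Or.inl rfl))⟩
      (ND_vec p q _ _ _).1 (by rw [(ND_vec p q _ _ _).2, one_div, phi_inv]; ring)
  have v2' : ∀ s : ℝ, s = 1 ∨ s = -1 → ![s * φ, -((φ - 1) * p)] ∈ Sh (ND p q) VD := fun s hs =>
    mem_Sh (V := VD) (v := ![-1 / φ, s * φ, 0]) ⟨1, -1, s, Or.inl rfl, Or.inr rfl, hs,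
      Or.inr (Or.inr (Or.inl rfl))⟩
      (ND_vec p q _ _ _).1 (by rw [(ND_vec p q _ _ _).2, div_eq_mul_inv, phi_inv]; ring)
  have v3 : ![0, φ * p + (φ - 1) * q] ∈ Sh (ND p q) VD :=
    mem_Sh (V := VD) (v := ![1 * φ, 0, -1 / φ]) ⟨1, -1, 1, Or.inl rfl, Or.inr rfl, Or.inl rfl,
      Or.inr (Or.inr (Or.inr rfl))⟩
      (ND_vec p q _ _ _).1 (by rw [(ND_vec p q _ _ _).2, div_eq_mul_inv, phi_inv]; ring)
  have v3' : ![0, -(φ * p + (φ - 1) * q)] ∈ Sh (ND p q) VD :=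
    mem_Sh (V := VD) (v := ![-1 * φ, 0, 1 / φ]) ⟨1, 1, -1, Or.inl rfl, Or.inl rfl, Or.inr rfl,
      Or.inr (Or.inr (Or.inr rfl))⟩
      (ND_vec p q _ _ _).1 (by rw [(ND_vec p q _ _ _).2, div_eq_mul_inv, phi_inv]; ring)
  -- the sign of `z 0`
  obtain ⟨s, hs, hz⟩ : ∃ s : ℝ, (s = 1 ∨ s = -1) ∧ z 0 = s * |z 0| := by
    rcases le_total 0 (z 0) with h | h
    · exact ⟨1, Or.inl rfl, by rw [abs_of_nonneg h, one_mul]⟩
    · exact ⟨-1, Or.inr rfl, by rw [abs_of_nonpos h]; ring⟩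
  have ez : z = ![z 0, z 1] := by
    ext i
    fin_cases i <;> rfl
  rcases le_total |z 0| 1 with h | h
  · have k := trap hK v3 v3' (v1 s hs) (v1' s hs) (θ := |z 0|) (y := z 1) (abs_nonneg _) h
      (by nlinarith [z3'])
    have e : (1 - |z 0|) * 0 + |z 0| * s = z 0 := by
      rw [mul_zero, zero_add, mul_comm]
      exact hz.symm
    rw [e] at k
    rw [ez]
    exact k
  · have hf1 : 0 < φ - 1 := by linarith [hf.1]
    have k := trap hK (v1 s hs) (v1' s hs) (v2 s hs) (v2' s hs) (θ := (|z 0| - 1) / (φ - 1))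
      (y := z 1) (div_nonneg (by linarith) hf1.le) (by
        rw [div_le_one hf1]
        linarith) (by
        have e1 : (φ - 1) * ((1 - (|z 0| - 1) / (φ - 1)) * (p + q) +
            (|z 0| - 1) / (φ - 1) * ((φ - 1) * p)) =
            p + φ * q - ((2 - φ) * p + q) * |z 0| := edge_aux _ _ _ _ hf1
        have e2 : (φ - 1) * |z 1| < (φ - 1) * ((1 - (|z 0| - 1) / (φ - 1)) * (p + q) +
            (|z 0| - 1) / (φ - 1) * ((φ - 1) * p)) := by
          rw [e1]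
          linarith
        exact lt_of_mul_lt_mul_left e2 hf1.le)
    have e : (1 - (|z 0| - 1) / (φ - 1)) * s + (|z 0| - 1) / (φ - 1) * (s * φ) = z 0 := by
      have e3 : (1 - (|z 0| - 1) / (φ - 1)) * s + (|z 0| - 1) / (φ - 1) * (s * φ) =
          s * |z 0| := edge_aux2 _ _ _ hf1
      rw [e3]
      exact hz.symm
    rw [e] at k
    rw [ez]
    exact k

/-- membership in the decagon -/
theorem mem_OD {p q c X Y X0 Y0 : ℝ} (hc : 0 < c) (ha : 0 < (2 - φ) * p + q)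
    (hb : 0 < (φ - 1) * p - (2 - φ) * q) (hX : |X| ≤ X0) (hY : |Y| ≤ Y0)
    (h1 : c * X0 < φ) (h2 : c * (((2 - φ) * p + q) * X0 + (φ - 1) * Y0) < p + φ * q)
    (h3 : c * (((φ - 1) * p - (2 - φ) * q) * X0 + Y0) < φ * p + (φ - 1) * q) :
    ![c * X, c * Y] ∈ OD p q := by
  have hf1 : 0 < φ - 1 := by linarith [phi_bd.1]
  have eX : |c * X| ≤ c * X0 := by
    rw [abs_mul, abs_of_pos hc]
    exact mul_le_mul_of_nonneg_left hX hc.le
  have eY : |c * Y| ≤ c * Y0 := by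
    rw [abs_mul, abs_of_pos hc]
    exact mul_le_mul_of_nonneg_left hY hc.le
  refine ⟨?_, ?_, ?_⟩
  · show 1 * |c * X| + 0 * |c * Y| < φ
    linarith
  · show ((2 - φ) * p + q) * |c * X| + (φ - 1) * |c * Y| < p + φ * q
    have e1 := mul_le_mul_of_nonneg_left eX ha.le
    have e2 := mul_le_mul_of_nonneg_left eY hf1.le
    linarith
  · show ((φ - 1) * p - (2 - φ) * q) * |c * X| + 1 * |c * Y| < φ * p + (φ - 1) * q
    have e1 := mul_le_mul_of_nonneg_left eX hb.le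
    linarith

theorem t_LowD : LowD := by
  intro A B p q ν h c hc hcν
  obtain ⟨⟨hA1, hA2⟩, ⟨hB1, hB2⟩, hp, hq, ⟨hν1, hν2⟩⟩ := opt_bd h
  obtain ⟨⟨ha1, ha2⟩, ⟨hb1, hb2⟩, hC1, hC2⟩ := coef hp hq
  obtain ⟨hf1, hf2⟩ := phi_bd
  have hsq := phi_sq
  have hc2 : c < 1.01083 := hcν.trans hν2
  have hopen : IsOpen (OD p q) := (isOpen_St _ _ _).inter ((isOpen_St _ _ _).inter (isOpen_St _ _ _))
  have hconv : Convex ℝ (OD p q) := (convex_St (by norm_num) le_rfl _).inter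
    ((convex_St ha1.le (by linarith) _).inter (convex_St hb1.le (by norm_num) _))
  refine passage (MD_mem h.AB) (ND_mem h.pq) hc (OD p q) hopen hconv ?_ (OD_sub p q)
  set α := (2 - φ) * p + q with hα
  set β := (φ - 1) * p - (2 - φ) * q with hβ
  -- the numerical criterion
  have num : ∀ X Y X0 Y0 x0 y0 : ℝ, |X| ≤ X0 → |Y| ≤ Y0 → X0 ≤ x0 → Y0 ≤ y0 →
      1.01083 * x0 < 1.61803 → c * (α * X0 + (φ - 1) * Y0) < p + φ * q →
      1.01083 * (0.4445 * x0 + y0) < 1.7320 → ![c * X, c * Y] ∈ OD p q := by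
    intro X Y X0 Y0 x0 y0 hX hY hx hy k1 k2 k3
    have hX0 : 0 ≤ X0 := (abs_nonneg _).trans hX
    have hY0 : 0 ≤ Y0 := (abs_nonneg _).trans hY
    refine mem_OD hc ha1 hb1 hX hY ?_ k2 ?_
    · have e : c * X0 ≤ 1.01083 * x0 := mul_le_mul hc2.le hx hX0 (by norm_num)
      linarith
    · have e1 : β * X0 ≤ 0.4445 * x0 := mul_le_mul hb2.le hx hX0 (by norm_num)
      have e2 : c * (β * X0 + Y0) ≤ 1.01083 * (0.4445 * x0 + y0) :=
        mul_le_mul hc2.le (by linarith) (by positivity) (by norm_num)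
      show c * (β * X0 + Y0) < φ * p + (φ - 1) * q
      linarith
  have num2 : ∀ X0 Y0 x0 y0 : ℝ, 0 ≤ X0 → 0 ≤ Y0 → X0 ≤ x0 → Y0 ≤ y0 →
      1.01083 * (0.7091 * x0 + 0.61804 * y0) < 1.5045 →
      c * (α * X0 + (φ - 1) * Y0) < p + φ * q := by
    intro X0 Y0 x0 y0 hX0 hY0 hx hy k
    have e1 : α * X0 ≤ 0.7091 * x0 := mul_le_mul ha2.le hx hX0 (by norm_num)
    have e2 : (φ - 1) * Y0 ≤ 0.61804 * y0 := mul_le_mul (by linarith) hy hY0 (by norm_num)
    have e3 : 0 ≤ (φ - 1) * Y0 := mul_nonneg (by linarith) hY0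
    have e4 : 0 ≤ α * X0 := mul_nonneg ha1.le hX0
    have e5 : c * (α * X0 + (φ - 1) * Y0) ≤ 1.01083 * (0.7091 * x0 + 0.61804 * y0) :=
      mul_le_mul hc2.le (by linarith) (by linarith) (by norm_num)
    linarith
  have hA0 : 0 < A := by linarith
  have hB0 : 0 < B := by linarith
  have sgn : ∀ r : ℝ, r = 1 ∨ r = -1 → |r| = 1 := by
    rintro r (rfl | rfl) <;> norm_num
  rintro v ⟨r, s, t, hr, hs, ht, rfl | rfl | rfl | rfl⟩
  · rw [(MD_vec A B _ _ _).1, (MD_vec A B _ _ _).2]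
    refine num _ _ (A + B) 1 1.228 1 ?_ ?_ ?_ ?_ (by norm_num) ?_ (by norm_num)
    · have k := abs_sub (A * s) (B * t)
      rw [abs_mul, abs_mul, sgn s hs, sgn t ht, abs_of_pos hA0, abs_of_pos hB0] at k
      linarith
    · rw [sgn r hr]
    · linarith
    · norm_num
    · have k := h.d2
      have k2 : 0 < (A + B) * ((2 - φ) * p + q) + (φ - 1) := by
        have := mul_pos (add_pos hA0 hB0) ha1
        have e : (A + B) * α = (A + B) * ((2 - φ) * p + q) := rfl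
        linarith
      have k3 := mul_lt_mul_of_pos_right hcν k2
      rw [← k] at k3
      have e : c * (α * (A + B) + (φ - 1) * 1) = c * ((A + B) * ((2 - φ) * p + q) + (φ - 1)) := by
        rw [hα]
        ring
      rw [e]
      exact k3
  · rw [(MD_vec A B _ _ _).1, (MD_vec A B _ _ _).2]
    have e1 : (φ - 1) * A ≤ 0.61804 * 0.96473 :=
      mul_le_mul (by linarith) hA2.le hA0.le (by norm_num)
    have e2 : φ * B ≤ 1.61804 * 0.26327 := mul_le_mul hf2.le hB2.le hB0.le (by norm_num)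
    have e3 : 0 < (φ - 1) * A := mul_pos (by linarith) hA0
    have e4 : 0 < φ * B := mul_pos (by linarith) hB0
    refine num _ _ ((φ - 1) * A + φ * B) 0 1.03 0 ?_ ?_ ?_ ?_ (by norm_num) ?_ (by norm_num)
    · have k := abs_sub (A * (s / φ)) (B * (t * φ))
      rw [abs_mul, abs_mul, div_eq_mul_inv, abs_mul, abs_mul, sgn s hs, sgn t ht, abs_of_pos hA0,
        abs_of_pos hB0, phi_inv, abs_of_pos (by linarith : (0:ℝ) < φ - 1),
        abs_of_pos (by linarith : (0:ℝ) < φ)] at k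
      rw [div_eq_mul_inv, phi_inv]
      linarith
    · simp
    · norm_num at e1 e2
      norm_num
      linarith
    · norm_num
    · refine num2 _ _ 1.03 0 (by linarith) le_rfl ?_ le_rfl (by norm_num)
      norm_num at e1 e2
      norm_num
      linarith
  · rw [(MD_vec A B _ _ _).1, (MD_vec A B _ _ _).2]
    have e1 : φ * A ≤ 1.61804 * 0.96473 := mul_le_mul hf2.le hA2.le hA0.le (by norm_num)
    have e3 : 0 < φ * A := mul_pos (by linarith) hA0
    refine num _ _ (φ * A) (φ - 1) 1.562 0.61804 ?_ ?_ ?_ ?_ (by norm_num) ?_ (by norm_num)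
    · rw [mul_zero, sub_zero, abs_mul, abs_mul, sgn t ht, abs_of_pos hA0,
        abs_of_pos (by linarith : (0:ℝ) < φ)]
      linarith
    · rw [div_eq_mul_inv, abs_mul, sgn s hs, phi_inv, abs_of_pos (by linarith : (0:ℝ) < φ - 1)]
      linarith
    · norm_num at e1
      norm_num
      linarith
    · linarith
    · have k := h.d1
      have k2 : 0 < φ * A * ((2 - φ) * p + q) + (2 - φ) := by
        have := mul_pos e3 ha1
        have e : φ * A * α = φ * A * ((2 - φ) * p + q) := rfl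
        linarith
      have k3 := mul_lt_mul_of_pos_right hcν k2
      rw [← k] at k3
      have e : c * (α * (φ * A) + (φ - 1) * (φ - 1)) =
          c * (φ * A * ((2 - φ) * p + q) + (2 - φ)) := by
        have e5 : (φ - 1) * (φ - 1) = 2 - φ := by linarith
        rw [hα, e5]
        ring
      rw [e]
      exact k3
  · rw [(MD_vec A B _ _ _).1, (MD_vec A B _ _ _).2]
    have e1 : (φ - 1) * B ≤ 0.61804 * 0.26327 :=
      mul_le_mul (by linarith) hB2.le hB0.le (by norm_num)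
    have e3 : 0 < (φ - 1) * B := mul_pos (by linarith) hB0
    refine num _ _ ((φ - 1) * B) φ 0.163 1.61804 ?_ ?_ ?_ ?_ (by norm_num) ?_ (by norm_num)
    · rw [mul_zero, zero_sub, abs_neg, abs_mul, div_eq_mul_inv, abs_mul, sgn s hs, phi_inv,
        abs_of_pos hB0, abs_of_pos (by linarith : (0:ℝ) < φ - 1)]
      linarith
    · rw [abs_mul, sgn t ht, abs_of_pos (by linarith : (0:ℝ) < φ)]
      linarith
    · norm_num at e1
      norm_num
      linarith
    · exact hf2.le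
    · refine num2 _ _ 0.163 1.61804 e3.le (by linarith) ?_ hf2.le (by norm_num)
      norm_num at e1
      norm_num
      linarith

end Pool.Agent.W2helper17.NW
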