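import Pool.Agent.W2helper59.NW.Stm

/-!
# Project NW: a general lemma for explicit passages
-/

set_option autoImplicit false

namespace Pool.Agent.W2helper17.NW

open Matrix
open Pool.Agent.W2helper59.NW

/-- the shadow in direction of the third row -/
noncomputable def prj (M : Matrix (Fin 3) (Fin 3) ℝ) : (Fin 3 → ℝ) →ₗ[ℝ] (Fin 2 → ℝ) where
  toFun x := ![(M.mulVec x) 0, (M.mulVec x) 1]
  map_add' x y := by
    ext i
    fin_cases i <;> simp [Matrix.mulVec_add]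
  map_smul' r x := by
    ext i
    fin_cases i <;> simp [Matrix.mulVec_smul]

theorem prj_apply (M : Matrix (Fin 3) (Fin 3) ℝ) (x : Fin 3 → ℝ) :
    prj M x = ![(M.mulVec x) 0, (M.mulVec x) 1] := rfl

/-- the shadow of the body -/
def Sh (M : Matrix (Fin 3) (Fin 3) ℝ) (V : Set (Fin 3 → ℝ)) : Set (Fin 2 → ℝ) :=
  prj M '' convexHull ℝ V

theorem convex_Sh (M : Matrix (Fin 3) (Fin 3) ℝ) (V : Set (Fin 3 → ℝ)) : Convex ℝ (Sh M V) :=
  (convex_convexHull ℝ V).linear_image (prj M)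

theorem mem_Sh {M : Matrix (Fin 3) (Fin 3) ℝ} {V : Set (Fin 3 → ℝ)} {v : Fin 3 → ℝ} (hv : v ∈ V)
    {a b : ℝ} (h0 : (M.mulVec v) 0 = a) (h1 : (M.mulVec v) 1 = b) : ![a, b] ∈ Sh M V :=
  ⟨v, subset_convexHull ℝ V hv, by rw [prj_apply, h0, h1]⟩

/-- an explicit passage -/
theorem passage {V : Set (Fin 3 → ℝ)} {M N : Matrix (Fin 3) (Fin 3) ℝ}
    (hM : M ∈ Matrix.specialOrthogonalGroup (Fin 3) ℝ)
    (hN : N ∈ Matrix.specialOrthogonalGroup (Fin 3) ℝ) {c : ℝ} (hc : 0 < c)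
    (O : Set (Fin 2 → ℝ)) (hO : IsOpen O) (hcv : Convex ℝ O)
    (h1 : ∀ v ∈ V, ![c * (M.mulVec v) 0, c * (M.mulVec v) 1] ∈ O) (h2 : O ⊆ Sh N V) :
    c ∈ SC V := by
  refine ⟨hc, M, hM, N, hN, 0, ?_⟩
  have h3 : O ⊆ interior (Sh N V) := interior_maximal h2 hO
  refine subset_trans ?_ h3
  rintro _ ⟨x, hx, rfl⟩
  have h4 : V ⊆ (c • prj M) ⁻¹' O := by
    intro v hv
    have h5 := h1 v hv
    show (c • prj M) v ∈ O
    rw [LinearMap.smul_apply, prj_apply]
    simpa using h5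
  have h5 : x ∈ (c • prj M) ⁻¹' O := convexHull_min h4 (hcv.linear_preimage _) hx
  have h6 : (c • prj M) x ∈ O := h5
  rw [LinearMap.smul_apply, prj_apply] at h6
  show c • ![(M.mulVec x) 0, (M.mulVec x) 1] + 0 ∈ O
  rw [add_zero]
  exact h6

/-- a strip `a |x| + b |y| < C` -/
def St (a b C : ℝ) : Set (Fin 2 → ℝ) := {z | a * |z 0| + b * |z 1| < C}

theorem isOpen_St (a b C : ℝ) : IsOpen (St a b C) := by
  have hf : Continuous fun z : Fin 2 → ℝ => a * |z 0| + b * |z 1| := by fun_prop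
  exact isOpen_lt hf continuous_const

theorem convex_St {a b : ℝ} (ha : 0 ≤ a) (hb : 0 ≤ b) (C : ℝ) : Convex ℝ (St a b C) := by
  intro x hx y hy s t hs ht hst
  have hx' : a * |x 0| + b * |x 1| < C := hx
  have hy' : a * |y 0| + b * |y 1| < C := hy
  show a * |(s • x + t • y) 0| + b * |(s • x + t • y) 1| < C
  have e : ∀ i, |(s • x + t • y) i| ≤ s * |x i| + t * |y i| := by
    intro i
    have h := abs_add_le (s * x i) (t * y i)
    rw [abs_mul, abs_mul, abs_of_nonneg hs, abs_of_nonneg ht] at h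
    simpa using h
  have h0 := mul_le_mul_of_nonneg_left (e 0) ha
  have h1 := mul_le_mul_of_nonneg_left (e 1) hb
  have h2 : s * (a * |x 0| + b * |x 1|) + t * (a * |y 0| + b * |y 1|) < C := by
    rcases hs.eq_or_lt with h | h
    · have ht1 : t = 1 := by linarith
      rw [← h, ht1]
      linarith
    · have h3 : s * (a * |x 0| + b * |x 1|) < s * C := mul_lt_mul_of_pos_left hx' h
      have h4 : t * (a * |y 0| + b * |y 1|) ≤ t * C := mul_le_mul_of_nonneg_left hy'.le ht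
      have h5 : s * C + t * C = C := by rw [← add_mul, hst, one_mul]
      linarith
  nlinarith [h0, h1, h2]

/-- a trapezoid with the vertices `(a₁, ±b₁)`, `(a₂, ±b₂)` -/
theorem trap {K : Set (Fin 2 → ℝ)} (hK : Convex ℝ K) {a1 b1 a2 b2 : ℝ}
    (h1 : ![a1, b1] ∈ K) (h1' : ![a1, -b1] ∈ K) (h2 : ![a2, b2] ∈ K) (h2' : ![a2, -b2] ∈ K)
    {θ y : ℝ} (h0 : 0 ≤ θ) (hθ : θ ≤ 1) (hy : |y| < (1 - θ) * b1 + θ * b2) :
    ![(1 - θ) * a1 + θ * a2, y] ∈ K := by
  set M := (1 - θ) * b1 + θ * b2 with hM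
  have hM0 : 0 < M := lt_of_le_of_lt (abs_nonneg _) hy
  have k1 : ![(1 - θ) * a1 + θ * a2, M] ∈ K := by
    have h := hK h1 h2 (sub_nonneg.2 hθ) h0 (by ring)
    have e : ![(1 - θ) * a1 + θ * a2, M] = (1 - θ) • ![a1, b1] + θ • ![a2, b2] := by
      ext i
      fin_cases i <;> simp [hM]
    rw [e]
    exact h
  have k2 : ![(1 - θ) * a1 + θ * a2, -M] ∈ K := by
    have h := hK h1' h2' (sub_nonneg.2 hθ) h0 (by ring)
    have e : ![(1 - θ) * a1 + θ * a2, -M] = (1 - θ) • ![a1, -b1] + θ • ![a2, -b2] := by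
      ext i
      fin_cases i
      · simp
      · simp [hM]
        ring
    rw [e]
    exact h
  have hy' := abs_lt.1 hy
  set l : ℝ := (y / M + 1) / 2 with hl
  have e1 : y / M < 1 := by rw [div_lt_one hM0]; exact hy'.2
  have e2 : -1 < y / M := by rw [lt_div_iff₀ hM0]; linarith [hy'.1]
  have h := hK k1 k2 (a := l) (b := 1 - l) (by rw [hl]; linarith) (by rw [hl]; linarith) (by ring)
  have e : ![(1 - θ) * a1 + θ * a2, y] =
      l • ![(1 - θ) * a1 + θ * a2, M] + (1 - l) • ![(1 - θ) * a1 + θ * a2, -M] := by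
    ext i
    fin_cases i
    · simp
      ring
    · simp only [Fin.mk_one, Fin.isValue, Matrix.cons_val_one, Matrix.cons_val_fin_one,
        Pi.add_apply, Pi.smul_apply, smul_eq_mul]
      have e3 : y = y / M * M := by field_simp
      rw [hl]
      nlinarith [e3]
  rw [e]
  exact h

end Pool.Agent.W2helper17.NW
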